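import Pool.Agent.K1H23.PC.Defs
import Pool.Agent.H606R2.GPP.SegF

/-! Crossings of drawings with one bend per edge: quantifier-free descriptions. -/

set_option autoImplicit false

namespace Pool.Agent.K1H61.PC

open Pool.Agent.K1H23.PC Pool.Agent.NPC.ER.GPP

/-- the segments `pq` and `rs` cross properly -/
def Crs (p q r s : ℝ × ℝ) : Prop :=
  D p q r * D p q s < 0 ∧ D r s p * D r s q < 0

theorem Crs.swapL {p q r s : ℝ × ℝ} (h : Crs p q r s) : Crs q p r s := by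
  obtain ⟨h1, h2⟩ := h
  refine ⟨?_, ?_⟩
  · rw [D_swap12 p q r, D_swap12 p q s, neg_mul_neg]; exact h1
  · rw [mul_comm]; exact h2

theorem Crs.comm {p q r s : ℝ × ℝ} (h : Crs p q r s) : Crs r s p q := ⟨h.2, h.1⟩

theorem Crs.swapR {p q r s : ℝ × ℝ} (h : Crs p q r s) : Crs p q s r := h.comm.swapL.comm

/-- the common point is unique -/
theorem Crs.uniq {p q r s x y : ℝ × ℝ} (h : Crs p q r s) (hx : x ∈ segment ℝ p q)
    (hx' : x ∈ segment ℝ r s) (hy : y ∈ segment ℝ p q) (hy' : y ∈ segment ℝ r s) : x = y := by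
  obtain ⟨t, t0, t1, e1, e2⟩ := mem_seg.1 hx'
  obtain ⟨u, u0, u1, f1, f2⟩ := mem_seg.1 hy'
  have hx1 : x = pt t r s := Prod.ext e1 e2
  have hy1 : y = pt u r s := Prod.ext f1 f2
  have k1 := D_self_of_mem hx
  have k2 := D_self_of_mem hy
  rw [hx1, D_pt] at k1
  rw [hy1, D_pt] at k2
  have h3 : (t - u) * (D p q s - D p q r) = 0 := by linear_combination k1 - k2
  have h4 : D p q s - D p q r ≠ 0 := by
    intro h4
    have h5 : D p q s = D p q r := by linarith
    have h6 := h.1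
    rw [h5] at h6
    nlinarith [mul_self_nonneg (D p q r)]
  have h5 : t = u := by
    have := (mul_eq_zero.1 h3).resolve_right h4
    linarith
  rw [hx1, hy1, h5]

/-- simple paths with two segments -/
theorem simple2 (q : ℕ → ℝ × ℝ) : Simple 2 q ↔ q 0 ≠ q 1 ∧ q 1 ≠ q 2 ∧
    q 2 ∉ segment ℝ (q 0) (q 1) ∧ q 0 ∉ segment ℝ (q 1) (q 2) := by
  constructor
  · rintro ⟨h1, h2⟩
    have a1 : q 0 ≠ q 1 := h1 0 (by norm_num)
    have a2 : q 1 ≠ q 2 := h1 1 (by norm_num)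
    refine ⟨a1, a2, ?_, ?_⟩
    · intro h
      exact a2 (h2 0 1 (by norm_num) (by norm_num) (q 2) h (right_mem_segment ℝ _ _)).2.symm
    · intro h
      exact a1 (h2 0 1 (by norm_num) (by norm_num) (q 0) (left_mem_segment ℝ _ _) h).2
  · rintro ⟨h1, h2, h3, h4⟩
    constructor
    · intro i hi
      interval_cases i
      · exact h1
      · exact h2
    · intro i j hij hj x hx hy
      have hi0 : i = 0 := by omega
      have hj1 : j = 1 := by omega
      subst hi0 hj1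
      refine ⟨rfl, ?_⟩
      rw [segment_symm] at hx
      exact eq_of_adj h4 (by rw [segment_symm]; exact h3) hx hy

/-- paths with two segments -/
theorem mem_path2 (q : ℕ → ℝ × ℝ) (x : ℝ × ℝ) : x ∈ path 2 q ↔
    x ∈ segment ℝ (q 0) (q 1) ∨ x ∈ segment ℝ (q 1) (q 2) := by
  constructor
  · rintro ⟨i, hi, hx⟩
    interval_cases i
    · exact Or.inl hx
    · exact Or.inr hx
  · rintro (h | h)
    · exact ⟨0, by norm_num, h⟩
    · exact ⟨1, by norm_num, h⟩

/-- the end of the edge on the segment number `i` -/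
def ve (e : ℕ × ℕ) (i : ℕ) : ℕ := if i = 0 then e.1 else e.2

section

variable {V : List ℕ} {E : List (ℕ × ℕ)} {k : ℕ} {φ : ℕ → ℝ × ℝ} {q : ℕ × ℕ → ℕ → ℝ × ℝ}

theorem seg_eq (hP : IsPoly 2 V E φ q) {e : ℕ × ℕ} (he : e ∈ E) {i : ℕ} (hi : i < 2) :
    segment ℝ (q e i) (q e (i + 1)) = segment ℝ (φ (ve e i)) (q e 1) := by
  interval_cases i
  · have := hP.src e he
    simp [ve, ← this]
  · have := hP.tgt e he
    simp only [ve, one_ne_zero, if_false, ← this]
    exact segment_symm ℝ _ _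

theorem crs_eq (hP : IsPoly 2 V E φ q) {e : ℕ × ℕ} (he : e ∈ E) {i : ℕ} (hi : i < 2)
    {r s : ℝ × ℝ} : Crs (q e i) (q e (i + 1)) r s ↔ Crs (φ (ve e i)) (q e 1) r s := by
  interval_cases i
  · have := hP.src e he
    simp [ve, ← this]
  · have := hP.tgt e he
    simp only [ve, one_ne_zero, if_false, ← this]
    exact ⟨fun h => h.swapL, fun h => h.swapL⟩

theorem ve_mem (hI : IsInst (V, E, k)) {e : ℕ × ℕ} (he : e ∈ E) (i : ℕ) : ve e i ∈ V := by
  obtain ⟨h1, h2, -⟩ := hI.2.2 e he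
  unfold ve
  split_ifs
  exacts [h1, h2]

/-- no other vertex is on the segment number `i` -/
theorem other (hP : IsPoly 2 V E φ q) {e : ℕ × ℕ}
    (he : e ∈ E) {i : ℕ} {w : ℕ} (hw : w ∈ V) (hne : w ≠ ve e i) :
    φ w ∉ segment ℝ (φ (ve e i)) (q e 1) := by
  obtain ⟨a1, a2, a3, a4⟩ := (simple2 (q e)).1 (hP.simple e he)
  have s1 := hP.src e he
  have s2 := hP.tgt e he
  intro hx
  by_cases h1 : w = e.1
  · have hi0 : i ≠ 0 := by
      rintro rfl
      exact hne (by rw [h1]; rfl)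
    have e1 : ve e i = e.2 := if_neg hi0
    rw [e1, ← s2, h1, ← s1, segment_symm] at hx
    exact a4 hx
  · by_cases h2 : w = e.2
    · have hi0 : i = 0 := by
        by_contra hi0
        exact hne (by rw [h2]; exact (if_neg hi0).symm)
      have e1 : ve e i = e.1 := if_pos hi0
      rw [e1, ← s1, h2, ← s2] at hx
      exact a3 hx
    · apply hP.avoid e he w hw h1 h2
      rw [mem_path2]
      by_cases hi0 : i = 0
      · have e1 : ve e i = e.1 := if_pos hi0
        rw [e1, ← s1] at hx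
        exact Or.inl hx
      · have e1 : ve e i = e.2 := if_neg hi0
        rw [e1, ← s2, segment_symm] at hx
        exact Or.inr hx

/-- bends are not on segments of other edges -/
theorem bend (hP : IsPoly 2 V E φ q) (hq : Proper 2 E q) {e f : ℕ × ℕ} (he : e ∈ E) (hf : f ∈ E)
    (hne : e ≠ f) (j : ℕ) : q e 1 ∉ segment ℝ (φ (ve f j)) (q f 1) := by
  intro h
  apply hq e he f hf hne 1 (by norm_num) (by norm_num)
  rw [mem_path2]
  by_cases hj : j = 0
  · have e1 : ve f j = f.1 := if_pos hj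
    rw [e1, ← hP.src f hf] at h
    exact Or.inl h
  · have e1 : ve f j = f.2 := if_neg hj
    rw [e1, ← hP.tgt f hf, segment_symm] at h
    exact Or.inr h

/-- `x` is a common point of the edges which is not a common end -/
def Cp (φ : ℕ → ℝ × ℝ) (q : ℕ × ℕ → ℕ → ℝ × ℝ) (e f : ℕ × ℕ) (x : ℝ × ℝ) : Prop :=
  x ∈ path 2 (q e) ∧ x ∈ path 2 (q f) ∧
    ¬ ∃ w, (w = e.1 ∨ w = e.2) ∧ (w = f.1 ∨ w = f.2) ∧ x = φ w

theorem ve_or (e : ℕ × ℕ) (i : ℕ) : ve e i = e.1 ∨ ve e i = e.2 := by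
  unfold ve
  split_ifs
  · exact Or.inl rfl
  · exact Or.inr rfl

theorem ends_mem (hI : IsInst (V, E, k)) {e : ℕ × ℕ} (he : e ∈ E) {w : ℕ}
    (hw : w = e.1 ∨ w = e.2) : w ∈ V := by
  obtain ⟨h1, h2, -⟩ := hI.2.2 e he
  rcases hw with rfl | rfl
  exacts [h1, h2]

/-- the common points of two edges -/
theorem cp_iff (hI : IsInst (V, E, k)) (hP : IsPoly 2 V E φ q) (hq : Proper 2 E q)
    {e f : ℕ × ℕ} (he : e ∈ E) (hf : f ∈ E) (hne : e ≠ f) (x : ℝ × ℝ) :
    Cp φ q e f x ↔ ∃ i < 2, ∃ j < 2, Crs (q e i) (q e (i + 1)) (q f j) (q f (j + 1)) ∧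
      x ∈ segment ℝ (q e i) (q e (i + 1)) ∧ x ∈ segment ℝ (q f j) (q f (j + 1)) := by
  have hc : ∀ i < 2, ∀ j < 2, Crs (q e i) (q e (i + 1)) (q f j) (q f (j + 1)) ↔
      Crs (φ (ve e i)) (q e 1) (φ (ve f j)) (q f 1) := by
    intro i hi j hj
    rw [crs_eq hP he hi]
    constructor
    · intro h
      exact ((crs_eq hP hf hj).1 h.comm).comm
    · intro h
      exact ((crs_eq hP hf hj).2 h.comm).comm
  constructor
  · rintro ⟨⟨i, hi, hx⟩, ⟨j, hj, hx'⟩, hno⟩
    refine ⟨i, hi, j, hj, ?_, hx, hx'⟩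
    rw [hc i hi j hj]
    rw [seg_eq hP he hi] at hx
    rw [seg_eq hP hf hj] at hx'
    have b1 := bend hP hq he hf hne j
    have b2 := bend hP hq hf he hne.symm i
    by_cases hv : ve e i = ve f j
    · exfalso
      apply hno
      refine ⟨ve e i, ve_or e i, ?_, ?_⟩
      · rw [hv]; exact ve_or f j
      · rw [← hv] at hx' b1
        exact eq_of_adj b1 b2 hx hx'
    · exact (meets_iff (other hP he (ve_mem hI hf j) (Ne.symm hv)) b2
        (other hP hf (ve_mem hI he i) hv) b1).1 ⟨x, hx, hx'⟩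
  · rintro ⟨i, hi, j, hj, h, hx, hx'⟩
    refine ⟨⟨i, hi, hx⟩, ⟨j, hj, hx'⟩, ?_⟩
    rw [hc i hi j hj] at h
    rw [seg_eq hP he hi] at hx
    rw [seg_eq hP hf hj] at hx'
    rintro ⟨w, hw1, hw2, rfl⟩
    have k1 : w = ve e i := by
      by_contra hk
      exact other hP he (ends_mem hI he hw1) hk hx
    have k2 : w = ve f j := by
      by_contra hk
      exact other hP hf (ends_mem hI hf hw2) hk hx'
    have h1 := h.1
    rw [← k1, ← k2] at h1
    have h2 : D (φ w) (q e 1) (φ w) = 0 := by unfold D; ring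
    rw [h2, zero_mul] at h1
    exact lt_irrefl _ h1

/-- the segments of the common point -/
theorem cp_uniq (hP : IsPoly 2 V E φ q) (hq : Proper 2 E q)
    {e f : ℕ × ℕ} (he : e ∈ E) (hf : f ∈ E) (hne : e ≠ f) {x : ℝ × ℝ} (hx' : x ∈ path 2 (q f))
    {i i' : ℕ} (hi : i < 2) (hi' : i' < 2) (hx : x ∈ segment ℝ (q e i) (q e (i + 1)))
    (hy : x ∈ segment ℝ (q e i') (q e (i' + 1))) : i = i' := by
  by_contra hii
  have hs := hP.simple e he
  have h1 : x = q e 1 := by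
    rcases lt_or_gt_of_ne hii with h | h
    · obtain ⟨h2, h3⟩ := hs.meet i i' h hi' x hx hy
      have : i' = 1 := by omega
      rw [h3, this]
    · obtain ⟨h2, h3⟩ := hs.meet i' i h hi x hy hx
      have : i = 1 := by omega
      rw [h3, this]
  rw [h1] at hx'
  exact hq e he f hf hne 1 (by norm_num) (by norm_num) hx'

open scoped Classical in
/-- the pairs of segments which cross properly: the numbers `a < b` of the edges and the numbers
of the segments -/
noncomputable def prs (E : List (ℕ × ℕ)) (q : ℕ × ℕ → ℕ → ℝ × ℝ) : Finset ((ℕ × ℕ) × (ℕ × ℕ)) :=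
  ((Finset.range E.length ×ˢ Finset.range E.length) ×ˢ
    (Finset.range 2 ×ˢ Finset.range 2)).filter fun z => z.1.1 < z.1.2 ∧
      Crs (q (E.getD z.1.1 (0, 0)) z.2.1) (q (E.getD z.1.1 (0, 0)) (z.2.1 + 1))
        (q (E.getD z.1.2 (0, 0)) z.2.2) (q (E.getD z.1.2 (0, 0)) (z.2.2 + 1))

theorem mem_prs (z : (ℕ × ℕ) × (ℕ × ℕ)) : z ∈ prs E q ↔ (z.1.1 < z.1.2 ∧ z.1.2 < E.length ∧
    z.2.1 < 2 ∧ z.2.2 < 2) ∧
      Crs (q (E.getD z.1.1 (0, 0)) z.2.1) (q (E.getD z.1.1 (0, 0)) (z.2.1 + 1))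
        (q (E.getD z.1.2 (0, 0)) z.2.2) (q (E.getD z.1.2 (0, 0)) (z.2.2 + 1)) := by
  classical
  unfold prs
  simp only [Finset.mem_filter, Finset.mem_product, Finset.mem_range]
  constructor
  · rintro ⟨⟨⟨h1, h2⟩, h3, h4⟩, h5, h6⟩
    exact ⟨⟨h5, h2, h3, h4⟩, h6⟩
  · rintro ⟨⟨h5, h2, h3, h4⟩, h6⟩
    exact ⟨⟨⟨h5.trans h2, h2⟩, h3, h4⟩, h5, h6⟩

/-- the crossings are in bijection with the pairs of segments which cross properly -/
theorem geo (hI : IsInst (V, E, k)) (hP : IsPoly 2 V E φ q) (hq : Proper 2 E q) :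
    (crossings 2 E φ q).Finite ∧ (crossings 2 E φ q).ncard = (prs E q).card := by
  classical
  have hnd : E.Nodup := hI.2.1
  have hget : ∀ a < E.length, E.getD a (0, 0) ∈ E := by
    intro a ha
    rw [List.getD_eq_getElem _ _ ha]
    exact List.getElem_mem ha
  have hinj : ∀ a < E.length, ∀ b < E.length, E.getD a (0, 0) = E.getD b (0, 0) → a = b := by
    intro a ha b hb h
    rw [List.getD_eq_getElem _ _ ha, List.getD_eq_getElem _ _ hb] at h
    exact (hnd.getElem_inj_iff).1 h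
  have hidx : ∀ e ∈ E, ∃ a < E.length, E.getD a (0, 0) = e := by
    intro e he
    obtain ⟨a, ha, h⟩ := List.getElem_of_mem he
    exact ⟨a, ha, by rw [List.getD_eq_getElem _ _ ha]; exact h⟩
  -- the common point
  have hex : ∀ z : (ℕ × ℕ) × (ℕ × ℕ), ∃ x : ℝ × ℝ, z ∈ prs E q →
      x ∈ segment ℝ (q (E.getD z.1.1 (0, 0)) z.2.1) (q (E.getD z.1.1 (0, 0)) (z.2.1 + 1)) ∧
      x ∈ segment ℝ (q (E.getD z.1.2 (0, 0)) z.2.2) (q (E.getD z.1.2 (0, 0)) (z.2.2 + 1)) := by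
    intro z
    by_cases hz : z ∈ prs E q
    · obtain ⟨-, h1, h2⟩ := (mem_prs z).1 hz
      obtain ⟨x, hx, hx'⟩ := meets_of_side h1 h2
      exact ⟨x, fun _ => ⟨hx, hx'⟩⟩
    · exact ⟨0, fun h => absurd h hz⟩
  choose g hg using hex
  set G : (ℕ × ℕ) × (ℕ × ℕ) → Sym2 (ℕ × ℕ) × (ℝ × ℝ) :=
    fun z => (s(E.getD z.1.1 (0, 0), E.getD z.1.2 (0, 0)), g z) with hG
  have himg : crossings 2 E φ q = G '' (prs E q : Set ((ℕ × ℕ) × (ℕ × ℕ))) := by
    ext ⟨p, x⟩
    constructor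
    · rintro ⟨e, he, f, hf, hne, hp, hx, hx', hno⟩
      simp only at hp hx hx' hno
      subst hp
      -- order the pair
      have main : ∀ e ∈ E, ∀ f ∈ E, e ≠ f → Cp φ q e f x → ∀ a < E.length, ∀ b < E.length,
          E.getD a (0, 0) = e → E.getD b (0, 0) = f → a < b →
          ((s(e, f), x) : Sym2 (ℕ × ℕ) × (ℝ × ℝ)) ∈
            G '' (prs E q : Set ((ℕ × ℕ) × (ℕ × ℕ))) := by
        intro e he f hf hne hcp a ha b hb hae hbf hab
        obtain ⟨i, hi, j, hj, hc, h1, h2⟩ := (cp_iff hI hP hq he hf hne x).1 hcp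
        have hz : ((a, b), (i, j)) ∈ prs E q := by
          rw [mem_prs]
          refine ⟨⟨hab, hb, hi, hj⟩, ?_⟩
          simp only
          rw [hae, hbf]
          exact hc
        refine ⟨((a, b), (i, j)), hz, ?_⟩
        obtain ⟨g1, g2⟩ := hg _ hz
        simp only [hae, hbf] at g1 g2
        have hgx := hc.uniq g1 g2 h1 h2
        simp only [hG, hae, hbf, hgx]
      obtain ⟨a, ha, hae⟩ := hidx e he
      obtain ⟨b, hb, hbf⟩ := hidx f hf
      rcases lt_trichotomy a b with hab | hab | hab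
      · exact main e he f hf hne ⟨hx, hx', hno⟩ a ha b hb hae hbf hab
      · exfalso
        apply hne
        rw [← hae, ← hbf, hab]
      · rw [Sym2.eq_swap]
        refine main f hf e he hne.symm ⟨hx', hx, ?_⟩ b hb a ha hbf hae hab
        rintro ⟨w, h1, h2, h3⟩
        exact hno ⟨w, h2, h1, h3⟩
    · rintro ⟨z, hz, hzx⟩
      have hz' : z ∈ prs E q := hz
      obtain ⟨⟨h1, h2, h3, h4⟩, hc⟩ := (mem_prs z).1 hz'
      have ha : z.1.1 < E.length := h1.trans h2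
      have hne : E.getD z.1.1 (0, 0) ≠ E.getD z.1.2 (0, 0) := by
        intro h
        have := hinj _ ha _ h2 h
        omega
      obtain ⟨g1, g2⟩ := hg z hz'
      have hcp := (cp_iff hI hP hq (hget _ ha) (hget _ h2) hne (g z)).2
        ⟨z.2.1, h3, z.2.2, h4, hc, g1, g2⟩
      rw [← hzx]
      exact ⟨_, hget _ ha, _, hget _ h2, hne, rfl, hcp.1, hcp.2.1, hcp.2.2⟩
  have hinjG : Set.InjOn G (prs E q : Set ((ℕ × ℕ) × (ℕ × ℕ))) := by
    intro z hz z' hz' h
    have hz1 : z ∈ prs E q := hz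
    have hz2 : z' ∈ prs E q := hz'
    obtain ⟨⟨h1, h2, h3, h4⟩, hc⟩ := (mem_prs z).1 hz1
    obtain ⟨⟨h1', h2', h3', h4'⟩, hc'⟩ := (mem_prs z').1 hz2
    have ha : z.1.1 < E.length := h1.trans h2
    have ha' : z'.1.1 < E.length := h1'.trans h2'
    have hs : s(E.getD z.1.1 (0, 0), E.getD z.1.2 (0, 0)) =
        s(E.getD z'.1.1 (0, 0), E.getD z'.1.2 (0, 0)) := congrArg Prod.fst h
    have hgg : g z = g z' := congrArg Prod.snd h
    have hab : z.1.1 = z'.1.1 ∧ z.1.2 = z'.1.2 := by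
      rw [Sym2.eq_iff] at hs
      rcases hs with ⟨s1, s2⟩ | ⟨s1, s2⟩
      · exact ⟨hinj _ ha _ ha' s1, hinj _ h2 _ h2' s2⟩
      · have t1 := hinj _ ha _ h2' s1
        have t2 := hinj _ h2 _ ha' s2
        omega
    have hne : E.getD z.1.1 (0, 0) ≠ E.getD z.1.2 (0, 0) := by
      intro h
      have := hinj _ ha _ h2 h
      omega
    obtain ⟨g1, g2⟩ := hg z hz1
    obtain ⟨g1', g2'⟩ := hg z' hz2
    rw [← hab.1, ← hgg] at g1'
    rw [← hab.2, ← hgg] at g2'
    have hcp := (cp_iff hI hP hq (hget _ ha) (hget _ h2) hne (g z)).2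
      ⟨z.2.1, h3, z.2.2, h4, hc, g1, g2⟩
    have u1 := cp_uniq hP hq (hget _ ha) (hget _ h2) hne hcp.2.1 h3 h3' g1 g1'
    have u2 := cp_uniq hP hq (hget _ h2) (hget _ ha) hne.symm hcp.1 h4 h4' g2 g2'
    exact Prod.ext (Prod.ext hab.1 hab.2) (Prod.ext u1 u2)
  rw [himg]
  refine ⟨(Finset.finite_toSet _).image _, ?_⟩
  rw [hinjG.ncard_image, Set.ncard_coe_finset]

end

end Pool.Agent.K1H61.PC
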